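import Pool.Graph.R_pool_sql_team_seeded_b0a926ef.R590.TdInd
import Pool.Agent.Helper38.TDM.Add

set_option autoImplicit false

/-!
# Turing determinacy implies that finitely additive measures are countably additive

Stated as an explicit reduction to the determinacy of Turing invariant sets of reals.

Turing determinacy implies that every exhaustive function `f` with the weak triangle property, on a
Boolean algebra in which all sequences have suprema, is continuous along all sequences decreasing to
zero. In particular, exhaustive submeasures are continuous, exhaustive finitely additive measures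
with values in commutative topological groups are countably additive, and all bounded finitely
additive real measures are countably additive.

With the axiom of choice this fails already for the algebra of all sets of natural numbers: a
nonprincipal ultrafilter is a bounded finitely additive measure. (The proof that the determined sets
give the conclusion can be carried out with dependent choices only.)

Proof. Let `a` be a sequence decreasing to zero, with pieces `a n \ a (n + 1)`. If `f (a n)` does
not tend to `o`, then for some neighbourhood `W` the sets `S` of natural numbers such that, for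
every `k`, some supremum of pieces with numbers in `S` beyond `k` has its value outside of `W` form
a reaping family. By the library theorem `ReapingFamilies` the determinacy of one Turing invariant
set gives a partition of the natural numbers into intervals such that every union of infinitely
many intervals almost contains a member of the family. Pairwise disjoint unions of infinitely many
intervals contradict the exhaustivity of `f`.
-/

namespace Pool.Agent.Results.MP_917879_lc.CountableAdditivity

open Pool.Agent.H685R3 Pool.Agent.R590.Td Pool.Agent.Helper38.TDM
open Filter Topology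
open scoped ENNReal

/-- `x` and `y` have the same Turing degree (Mathlib's Turing reducibility, for characteristic
functions). -/
def SameDegree (x y : ℕ → Bool) : Prop :=
  TuringReducible (charFn x) (charFn y) ∧ TuringReducible (charFn y) (charFn x)

/-- The set of all `x` such that for some `x'` of the same Turing degree the set coded by `e x'`
almost contains a member of `𝓢`. -/
def Sat (e : (ℕ → Bool) → ℕ → Bool) (𝓢 : Set (Set ℕ)) : Set (ℕ → Bool) :=
  {x | ∃ x', SameDegree x' x ∧ ∃ R ∈ 𝓢, (R \ {n | e x' n = true}).Finite}

/-- There is a Borel map `e` of the Cantor space into itself such that all sets `Sat e 𝓢` are Turing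
invariant, and such that the following holds for every Boolean algebra `B` in which every sequence
has a supremum.

(1) Let `f` be a function on `B` with values in a topological space, exhaustive and triangular with
respect to the point `o`, and let `a n` decrease to zero. If the sets `Sat e (Heavy f a W)`, `W` a
neighbourhood of `o`, are determined, then `f (a n)` tends to `o`.

(2) In particular this holds for every exhaustive submeasure.

(3) In particular, let `μ` be an exhaustive finitely additive measure on `B` with values in a
commutative topological group, let `d 0, d 1, ...` be pairwise disjoint and let `b` be their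
supremum. If the sets `Sat e (Heavy μ (Rest d b) W)`, `W` a neighbourhood of zero, are determined,
then `μ (d 0) + ... + μ (d (n - 1))` tends to `μ b`.

(4) In particular, let `μ` be a bounded finitely additive real measure on `B` (it is exhaustive). If
`d` and `b` are as in (3) and the sets of (3) are determined, then `μ b` is the sum of the
`μ (d n)`. -/
theorem result :
    ∃ e : (ℕ → Bool) → ℕ → Bool, Measurable e ∧
      (∀ 𝓢 : Set (Set ℕ), TuringInvariant (Sat e 𝓢)) ∧
      ∀ (B : Type*) [BooleanAlgebra B], SigmaComplete B →
        (∀ (X : Type*) [TopologicalSpace X] (f : B → X) (o : X), Exhaustive f o →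
          Triangular f o → ∀ a : ℕ → B, Vanishing a →
            (∀ W ∈ 𝓝 o, Determined (Sat e (Heavy f a W))) →
              Tendsto (fun n => f (a n)) atTop (𝓝 o)) ∧
        (∀ φ : B → ℝ≥0∞, Submeasure φ → Exhaustive φ 0 → ∀ a : ℕ → B, Vanishing a →
          (∀ W ∈ 𝓝 (0 : ℝ≥0∞), Determined (Sat e (Heavy φ a W))) →
            Tendsto (fun n => φ (a n)) atTop (𝓝 0)) ∧
        (∀ (G : Type*) [AddCommGroup G] [TopologicalSpace G] [IsTopologicalAddGroup G]
          (μ : B → G), FinAdditive μ → Exhaustive μ 0 → ∀ (d : ℕ → B) (b : B), DisjointSeq d →
            IsLUB (Set.range d) b →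
              (∀ W ∈ 𝓝 (0 : G), Determined (Sat e (Heavy μ (Rest d b) W))) →
                Tendsto (fun n => ∑ i ∈ Finset.range n, μ (d i)) atTop (𝓝 (μ b))) ∧
        (∀ μ : B → ℝ, FinAdditive μ → (∃ M, ∀ x, |μ x| ≤ M) → Exhaustive μ 0 ∧
          ∀ (d : ℕ → B) (b : B), DisjointSeq d → IsLUB (Set.range d) b →
            (∀ W ∈ 𝓝 (0 : ℝ), Determined (Sat e (Heavy μ (Rest d b) W))) →
              HasSum (fun n => μ (d n)) (μ b)) := by
  have key : ∀ 𝓢 : Set (Set ℕ), Sat Pool.Agent.W885.TD.ee 𝓢 = satE (Above 𝓢) := by
    intro 𝓢
    ext x
    exact ⟨fun ⟨x', h, h'⟩ => ⟨x', h.1, h.2, h'⟩, fun ⟨x', h1, h2, h'⟩ => ⟨x', ⟨h1, h2⟩, h'⟩⟩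
  have hP : Reaps fun 𝓢 => Determined (Sat Pool.Agent.W885.TD.ee 𝓢) := by
    intro 𝓡 hR hD
    obtain ⟨-, s, hs, h1⟩ := reaping (𝓡 := fun _ => 𝓡) (fun X => ⟨0, hR X⟩)
      fun _ => key 𝓡 ▸ hD
    exact ⟨s, hs, h1⟩
  refine ⟨Pool.Agent.W885.TD.ee, measurable_pi_lambda _ Pool.Agent.W885.TD.measurable_ee,
    fun 𝓢 => ?_, fun B _ hB => ⟨?_, ?_, ?_, ?_⟩⟩
  · rw [key]
    exact satE_invariant _
  · intro X _ f o hf hf' a ha hD
    exact exhaustive_tendsto hP hB hf hf' ha hD
  · intro φ hφ hf a ha hD
    exact exhaustive_tendsto hP hB hf (triangular_submeasure hφ) ha hD
  · intro G _ _ _ μ hμ hf d b hd hb hD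
    exact tendsto_sum hμ hd hb
      (exhaustive_tendsto hP hB hf (triangular_additive hμ) (rest_vanishing hb) hD)
  · rintro μ hμ ⟨M, hM⟩
    refine ⟨exhaustive_of_bounded hμ hM, fun d b hd hb hD => ?_⟩
    exact hasSum_of_bounded hμ hM hd hb (exhaustive_tendsto hP hB (exhaustive_of_bounded hμ hM)
      (triangular_additive hμ) (rest_vanishing hb) hD)

end Pool.Agent.Results.MP_917879_lc.CountableAdditivity
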