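import Pool.Graph.R_pool_sql_team_seeded_b0a926ef.R590.TdInd
import Pool.Agent.Helper38.TDM.Add

set_option autoImplicit false

/-!
# Turing determinacy makes homomorphisms to algebras with the countable chain condition continuous

Turing determinacy implies that every homomorphism from a Boolean algebra in which all sequences
have suprema to a Boolean algebra with the countable chain condition preserves all countable
suprema. Stated as an explicit reduction to the determinacy of one Turing invariant set of reals for
each homomorphism and each sequence.

With the axiom of choice this fails: a nonprincipal ultrafilter is a homomorphism from the algebra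
of all sets of natural numbers to the algebra with two elements.

Proof. Let `a n` decrease to zero, with pieces `a n \ a (n + 1)`, and let `c ≠ 0` be below all
`h (a n)`. The sets `S` of natural numbers such that the images of the suprema of the pieces with
numbers in `S` beyond `k`, for all `k`, have a common lower bound different from zero form a reaping
family. By the library theorem `ReapingFamilies` the determinacy of one Turing invariant set gives a
partition of the natural numbers into intervals such that every union of infinitely many intervals
almost contains a member of the family. Continuum many almost disjoint unions of infinitely many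
intervals give continuum many pairwise disjoint elements different from zero.
-/

namespace Pool.Agent.Results.MP_917879_lc.CountableChainTargets

open Pool.Agent.H685R3 Pool.Agent.R590.Td Pool.Agent.Helper38.TDM
open Filter Topology

/-- `x` and `y` have the same Turing degree (Mathlib's Turing reducibility, for characteristic
functions). -/
def SameDegree (x y : ℕ → Bool) : Prop :=
  TuringReducible (charFn x) (charFn y) ∧ TuringReducible (charFn y) (charFn x)

/-- The set of all `x` such that for some `x'` of the same Turing degree the set coded by `e x'`
almost contains a member of `𝓢`. -/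
def Sat (e : (ℕ → Bool) → ℕ → Bool) (𝓢 : Set (Set ℕ)) : Set (ℕ → Bool) :=
  {x | ∃ x', SameDegree x' x ∧ ∃ R ∈ 𝓢, (R \ {n | e x' n = true}).Finite}

/-- There is a Borel map `e` of the Cantor space into itself such that all sets `Sat e 𝓢` are Turing
invariant, and such that the following holds for every Boolean algebra `B` in which every sequence
has a supremum and for every Boolean algebra `C` in which all sets of pairwise disjoint elements are
countable. Let `h` be a homomorphism from `B` to `C`, and let `b` be the supremum of the sequence
`d`. If `Sat e (Large h (Rest d b))` is determined, then `h b` is the supremum of the `h (d n)`. -/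
theorem result :
    ∃ e : (ℕ → Bool) → ℕ → Bool, Measurable e ∧
      (∀ 𝓢 : Set (Set ℕ), TuringInvariant (Sat e 𝓢)) ∧
      ∀ (B : Type*) [BooleanAlgebra B] (C : Type*) [BooleanAlgebra C], SigmaComplete B →
        CountableChains C → ∀ (h : BoundedLatticeHom B C) (d : ℕ → B) (b : B),
          IsLUB (Set.range d) b → Determined (Sat e (Large h (Rest d b))) →
            IsLUB (Set.range fun n => h (d n)) (h b) := by
  have key : ∀ 𝓢 : Set (Set ℕ), Sat Pool.Agent.W885.TD.ee 𝓢 = satE (Above 𝓢) := by
    intro 𝓢
    ext x
    exact ⟨fun ⟨x', h, h'⟩ => ⟨x', h.1, h.2, h'⟩, fun ⟨x', h1, h2, h'⟩ => ⟨x', ⟨h1, h2⟩, h'⟩⟩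
  have hP : Reaps fun 𝓢 => Determined (Sat Pool.Agent.W885.TD.ee 𝓢) := by
    intro 𝓡 hR hD
    obtain ⟨-, s, hs, h1⟩ := reaping (𝓡 := fun _ => 𝓡) (fun X => ⟨0, hR X⟩)
      fun _ => key 𝓡 ▸ hD
    exact ⟨s, hs, h1⟩
  refine ⟨Pool.Agent.W885.TD.ee, measurable_pi_lambda _ Pool.Agent.W885.TD.measurable_ee,
    fun 𝓢 => ?_, fun B _ C _ hB hC h d b hb hD => ?_⟩
  · rw [key]
    exact satE_invariant _
  · exact hom_isLUB h (map_sup h) (map_bot h) hb
      (hom_isGLB hP hB hC h (map_bot h) (map_sup h) (map_inf h) (rest_vanishing hb) hD)

end Pool.Agent.Results.MP_917879_lc.CountableChainTargets
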