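import Pool.Graph.R_pool_sql_team_seeded_63374d34.N620.WU.Main
import Pool.Agent.Helper38.TDM.Bern

set_option autoImplicit false

/-!
# Turing determinacy and the perfect set property of regular sets of reals

Stated as an explicit reduction to the determinacy of Turing invariant sets of reals.

It is not known whether Turing determinacy implies the perfect set property of all sets of reals. The
library shows that Bernstein sets are the only obstacle (`WeakPerfectSet` on the page `MP_057cde_lc`,
and `WeakUniformization` for relations). Here it is shown that Turing determinacy implies the perfect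
set property for all universally measurable sets, for all sets which have the Baire property in all
Cantor sets, and for all sets with the Menger property; and continuous uniformization on Cantor sets
for all relations which are regular in one of these senses. In particular, under Turing determinacy
all universally null sets, all perfectly meager sets and all Rothberger sets are countable. With the
axiom of choice there are uncountable universally null, perfectly meager sets and uncountable Menger
sets without Cantor subsets. (The proof that the determined sets give the conclusions can be carried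
out with dependent choices only.)

Proof. Weak uniformization (a theorem of the library) gives a Cantor set and a continuous function on
it which uniformizes the relation everywhere or on a Bernstein set. A Bernstein set does not have the
Baire property and is not universally measurable. It does not have the Menger property: otherwise we
could assume that the sequences which are eventually false are not in it (there is an automorphism of
the binary tree which maps these sequences into the complement). The sets of all sequences with more
than `n` true places below `m` are, for fixed `n`, an open cover, and finitely many sets for each `n`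
never cover a Bernstein set, because there is a Cantor set of sequences with sufficiently large gaps.
-/

namespace Pool.Agent.Results.MP_917879_lc.PerfectSetDichotomy

open Pool.Agent.H685R3 Pool.Agent.N620.WP Pool.Agent.N620.WU Pool.Agent.Helper38.TDM
open MeasureTheory

/-- Turing reducibility of elements of the Cantor space (Mathlib's Turing reducibility, for
characteristic functions). -/
def Reducible (x y : ℕ → Bool) : Prop := TuringReducible (charFn x) (charFn y)

/-- `x` and `y` have the same Turing degree. -/
def SameDegree (x y : ℕ → Bool) : Prop := Reducible x y ∧ Reducible y x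

/-- The join `x ⊕ y`. -/
def Join (x y : ℕ → Bool) : ℕ → Bool := fun n => if n % 2 = 0 then x (n / 2) else y (n / 2)

/-- The Turing saturation of a set. -/
def Saturation (B : Set (ℕ → Bool)) : Set (ℕ → Bool) := {x | ∃ x' ∈ B, SameDegree x' x}

/-- The sets attached to the relation `N` have the property `P`. The sets attached to `N` are the
Turing saturation of the set of all `y` such that for all `e` the bit `F y e` says correctly whether
there is a `v` computable from `y` with `N (Ψ y e) v`, and, for all reals `w` and `u`, the Turing
saturation of the set of all `(x ⊕ v) ⊕ u` with `N x v` and `v` computable from `x ⊕ w`. -/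
def Attached (P : Set (ℕ → Bool) → Prop) (Ψ : (ℕ → Bool) → ℕ → ℕ → Bool) (F : (ℕ → Bool) → ℕ → Bool)
    (N : (ℕ → Bool) → (ℕ → Bool) → Prop) : Prop :=
  P (Saturation {y | ∀ e, (∃ v, Reducible v y ∧ N (Ψ y e) v) ↔ F y e = true}) ∧
    ∀ w u, P (Saturation {y | ∃ x v, N x v ∧ Reducible v (Join x w) ∧ y = Join (Join x v) u})

/-- The set `B` is regular in one of three senses: it is universally measurable, or it has the Baire
property, or it has the Menger property. -/
def Regular (B : Set (ℕ → Bool)) : Prop :=
  (∀ μ : Measure (ℕ → Bool), IsProbabilityMeasure μ → NullMeasurableSet B μ) ∨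
    BaireMeasurableSet B ∨ Menger B

/-- The set `A` is countable or contains a Cantor set. -/
def PerfectSetProperty (A : Set (ℕ → Bool)) : Prop :=
  A.Countable ∨ ∃ h, IsCantor h ∧ ∀ c, h c ∈ A

theorem saturation_eq {E : ℕ → List Bool → ℕ → Bool → Prop} {N : (ℕ → Bool) → (ℕ → Bool) → Prop} :
    Saturation {y | ∀ e, (∃ v, Reducible v y ∧ N (Psi (VE E) e y) v) ↔ G (VE E) e y 0 = true} =
      SN E N := by
  ext x
  constructor
  · rintro ⟨x', h, h1, h2⟩
    exact ⟨x', h1, h2, h⟩
  · rintro ⟨x', h1, h2, h⟩
    exact ⟨x', h, h1, h2⟩

theorem saturation_eq' {N : (ℕ → Bool) → (ℕ → Bool) → Prop} {w u : ℕ → Bool} :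
    Saturation {y | ∃ x v, N x v ∧ Reducible v (Join x w) ∧ y = Join (Join x v) u} =
      DD (AA N w) u := by
  ext x
  constructor
  · rintro ⟨x', ⟨a, v, h, h', rfl⟩, h1, h2⟩
    exact ⟨Join a v, join_mem_AA h h', h1, h2⟩
  · rintro ⟨a, ha, h1, h2⟩
    refine ⟨_, ⟨_, _, ha.1, ha.2, rfl⟩, ?_⟩
    have h3 : Join (Pool.Agent.Helper227.evn a) (Pool.Agent.Helper227.odd' a) = a :=
      Pool.Agent.Helper227.join_evn_odd a
    rw [h3]
    exact ⟨h1, h2⟩

theorem Regular.not_bernstein {B : Set (ℕ → Bool)} (hB : Regular B) : ¬ Bernstein B := by
  rcases hB with h | h | h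
  · exact measure_not_bernstein h
  · exact baire_not_bernstein h
  · exact h.not_bernstein

/-- There are Borel maps `Ψ` (from the Cantor space to sequences of elements of the Cantor space) and
`F` such that the sets attached to relations are Turing invariant, and such that the following
holds.

(1) Let `N` be a relation such that `{c | N (p c) (q c)}` is regular for all `p` parametrizing Cantor
sets and all continuous `q`. If the sets attached to `N` are determined and its domain is
uncountable, then there are a Cantor set, parametrized by `p`, and a continuous function `q` such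
that `N (p c) (q c)` holds for all `c`.

(2) Let `A` be a universally measurable set, or a set with the Menger property, or a set whose
preimages under the parametrizations of Cantor sets have the Baire property. If the sets attached to
`A` (to the relation `x ∈ A` between `x` and `v`) are determined, then `A` has the perfect set
property. -/
theorem result :
    ∃ (Ψ : (ℕ → Bool) → ℕ → ℕ → Bool) (F : (ℕ → Bool) → ℕ → Bool), Measurable Ψ ∧ Measurable F ∧
      (∀ N : (ℕ → Bool) → (ℕ → Bool) → Prop, Attached TuringInvariant Ψ F N) ∧
      (∀ N : (ℕ → Bool) → (ℕ → Bool) → Prop, Attached Determined Ψ F N →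
        ¬ {x | ∃ v, N x v}.Countable →
          (∀ p q : (ℕ → Bool) → ℕ → Bool, IsCantor p → Continuous q →
            Regular {c | N (p c) (q c)}) →
              ∃ p q : (ℕ → Bool) → ℕ → Bool, IsCantor p ∧ Continuous q ∧ ∀ c, N (p c) (q c)) ∧
      ∀ A : Set (ℕ → Bool), Attached Determined Ψ F (fun x _ => x ∈ A) →
        ((∀ μ : Measure (ℕ → Bool), IsProbabilityMeasure μ → NullMeasurableSet A μ) ∨ Menger A ∨
          ∀ h, IsCantor h → BaireMeasurableSet (h ⁻¹' A)) → PerfectSetProperty A := by
  obtain ⟨E, hE, hE'⟩ := Pool.Agent.Y588.PD.exists_fam
  have one : ∀ N : (ℕ → Bool) → (ℕ → Bool) → Prop,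
      Attached Determined (fun y e => Psi (VE E) e y) (fun y e => G (VE E) e y 0) N →
      ¬ {x | ∃ v, N x v}.Countable →
      ∃ p q : (ℕ → Bool) → ℕ → Bool, IsCantor p ∧ Continuous q ∧
        ((∀ c, N (p c) (q c)) ∨ Bernstein {c | N (p c) (q c)}) := by
    intro N hD hN
    obtain ⟨h1, h2⟩ := hD
    rw [saturation_eq] at h1
    obtain ⟨-, p, q, h3, h4, h5, h6⟩ := weak_unif hE hE' hN h1 fun w u => by
      have h3 := h2 w u
      rwa [saturation_eq'] at h3
    by_cases hk : ∃ k, IsCantor k ∧ ∀ c, N (p (k c)) (q (k c))
    · obtain ⟨k, hk, hk'⟩ := hk
      exact ⟨fun c => p (k c), fun c => q (k c), IsCantor.comp ⟨h3, h4⟩ hk, h5.comp hk.1,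
        Or.inl hk'⟩
    · push Not at hk
      exact ⟨p, q, ⟨h3, h4⟩, h5, Or.inr fun k hk' => ⟨h6 k hk'.1 hk'.2, hk k hk'⟩⟩
  have two : ∀ A : Set (ℕ → Bool),
      Attached Determined (fun y e => Psi (VE E) e y) (fun y e => G (VE E) e y 0)
        (fun x _ => x ∈ A) →
      PerfectSetProperty A ∨ ∃ h, IsCantor h ∧ Bernstein (h ⁻¹' A) := by
    intro A hD
    by_cases hA : A.Countable
    · exact Or.inl (Or.inl hA)
    · have h1 : {x : ℕ → Bool | ∃ _ : ℕ → Bool, x ∈ A} = A := by
        ext x
        exact ⟨fun ⟨_, h⟩ => h, fun h => ⟨x, h⟩⟩
      obtain ⟨p, q, hp, -, h | h⟩ := one (fun x _ => x ∈ A) hD (by rwa [h1])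
      · exact Or.inl (Or.inr ⟨p, hp, h⟩)
      · exact Or.inr ⟨p, hp, h⟩
  refine ⟨fun y e => Psi (VE E) e y, fun y e => G (VE E) e y 0, measurable_psi hE, measurable_G,
    fun N => ⟨?_, fun w u => ?_⟩, ?_, ?_⟩
  · rw [saturation_eq]
    exact inv_SN
  · rw [saturation_eq']
    exact inv_DD u
  · intro N hD hN hR
    obtain ⟨p, q, hp, hq, h | h⟩ := one N hD hN
    · exact ⟨p, q, hp, hq, h⟩
    · exact absurd h (hR p q hp hq).not_bernstein
  · intro A hD hR
    rcases two A hD with h | ⟨h, hh, hB⟩
    · exact h
    · exfalso
      rcases hR with hR | hR | hR
      · refine measure_not_bernstein (fun μ hμ => ?_) hB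
        have h1 : IsProbabilityMeasure (μ.map h) :=
          Measure.isProbabilityMeasure_map hh.1.measurable.aemeasurable
        exact (hR _ h1).preimage (hh.1.measurable.quasiMeasurePreserving μ)
      · exact (hR.preimage hh hB.nonempty).not_bernstein hB
      · exact baire_not_bernstein (hR h hh) hB

end Pool.Agent.Results.MP_917879_lc.PerfectSetDichotomy
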